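import Pool.Agent.Helper87.SL.Goals

/-!
Project SL (MP_c13f7d_co), packet STR: density of the structured colourings.
-/

set_option autoImplicit false

open Finset Filter Topology

namespace Pool.Agent.Helper89.SL

open Pool.Agent.Helper33.Schur Pool.Agent.Helper87.SL

theorem cnt_le {k : ℕ} (q s : ℕ) (c : ℕ → ℕ → Fin k) : cnt q s c ≤ 2 * q ^ 2 * s ^ 2 := by
  unfold cnt
  have h5 : ∀ a b i j : ℕ, (∑ e ∈ range 2,
      if i + j + e < s ∧ c a i = c b j ∧ c b j = c ((a + b) % q) (i + j + e) then 1 else 0) ≤ 2 := by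
    intro a b i j
    refine (Finset.sum_le_card_nsmul _ _ 1 ?_).trans (by simp)
    intro e _
    split_ifs <;> simp
  have h4 : ∀ a b i : ℕ, (∑ j ∈ range s, ∑ e ∈ range 2,
      if i + j + e < s ∧ c a i = c b j ∧ c b j = c ((a + b) % q) (i + j + e) then 1 else 0) ≤
        s * 2 := by
    intro a b i
    refine (Finset.sum_le_card_nsmul _ _ 2 (fun j _ => h5 a b i j)).trans ?_
    simp
  have h3 : ∀ a b : ℕ, (∑ i ∈ range s, ∑ j ∈ range s, ∑ e ∈ range 2,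
      if i + j + e < s ∧ c a i = c b j ∧ c b j = c ((a + b) % q) (i + j + e) then 1 else 0) ≤
        s * (s * 2) := by
    intro a b
    refine (Finset.sum_le_card_nsmul _ _ (s * 2) (fun i _ => h4 a b i)).trans ?_
    simp
  have h2 : ∀ a : ℕ, (∑ b ∈ range q, ∑ i ∈ range s, ∑ j ∈ range s, ∑ e ∈ range 2,
      if i + j + e < s ∧ c a i = c b j ∧ c b j = c ((a + b) % q) (i + j + e) then 1 else 0) ≤
        q * (s * (s * 2)) := by
    intro a
    refine (Finset.sum_le_card_nsmul _ _ (s * (s * 2)) (fun b _ => h3 a b)).trans ?_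
    simp
  refine (Finset.sum_le_card_nsmul _ _ (q * (s * (s * 2))) (fun a _ => h2 a)).trans ?_
  simp only [card_range, smul_eq_mul]
  apply le_of_eq
  ring

theorem mono_mono {k : ℕ} (χ : ℕ → Fin k) {N N' : ℕ} (h : N ≤ N') :
    schurMono χ N ≤ schurMono χ N' ∧ schurMono χ N' ≤ schurMono χ N + N' * (N' - N) := by
  unfold schurMono
  constructor
  · apply card_le_card
    intro p hp
    rw [mem_filter, mem_product, mem_Icc, mem_Icc] at hp ⊢
    obtain ⟨⟨h1, h2⟩, h3, h4, h5⟩ := hp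
    exact ⟨⟨⟨h1.1, h1.2.trans h⟩, ⟨h2.1, h2.2.trans h⟩⟩, h3, h4.trans h, h5⟩
  · have hsub : ((Finset.Icc 1 N' ×ˢ Finset.Icc 1 N').filter
        (fun q => q.1 ≤ q.2 ∧ q.1 + q.2 ≤ N' ∧ χ q.1 = χ q.2 ∧ χ q.2 = χ (q.1 + q.2))) ⊆
        ((Finset.Icc 1 N ×ˢ Finset.Icc 1 N).filter
          (fun q => q.1 ≤ q.2 ∧ q.1 + q.2 ≤ N ∧ χ q.1 = χ q.2 ∧ χ q.2 = χ (q.1 + q.2))) ∪
        ((Finset.Icc 1 N' ×ˢ Finset.Icc 1 N').filter
          (fun q => N < q.1 + q.2 ∧ q.1 + q.2 ≤ N')) := by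
      intro p hp
      rw [mem_filter, mem_product, mem_Icc, mem_Icc] at hp
      obtain ⟨⟨h1, h2⟩, h3, h4, h5⟩ := hp
      rw [mem_union, mem_filter, mem_filter, mem_product, mem_product, mem_Icc, mem_Icc, mem_Icc,
        mem_Icc]
      by_cases hN : p.1 + p.2 ≤ N
      · exact Or.inl ⟨⟨⟨h1.1, by omega⟩, ⟨h2.1, by omega⟩⟩, h3, hN, h5⟩
      · exact Or.inr ⟨⟨h1, h2⟩, by omega, h4⟩
    refine (card_le_card hsub).trans ((card_union_le _ _).trans ?_)
    gcongr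
    have hc : (Finset.Icc 1 N' ×ˢ Finset.Ioc N N').card = N' * (N' - N) := by
      rw [card_product]
      simp
    rw [← hc]
    refine card_le_card_of_injOn (fun p => (p.1, p.1 + p.2)) ?_ ?_
    · intro p hp
      rw [mem_coe, mem_filter, mem_product] at hp
      rw [mem_coe, mem_product, mem_Ioc]
      exact ⟨hp.1.1, hp.2⟩
    · rintro ⟨a, b⟩ _ ⟨a', b'⟩ _ hpp
      simp only [Prod.mk.injEq] at hpp ⊢
      omega

/-- **Packet STR.** -/
theorem gSTR : G_STR := by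
  intro hO hB k q s c hq hs
  refine ⟨20 * ((q : ℝ) * s) ^ 2, ?_⟩
  intro N
  have hw1 : 1 ≤ q * s := Nat.mul_pos hq hs
  set w : ℕ := q * s with hw
  set m : ℕ := N / w + 1 with hm
  have hm1 : 1 ≤ m := Nat.le_add_left 1 _
  have hdm : w * (N / w) + N % w = N := Nat.div_add_mod N w
  have hmod : N % w < w := Nat.mod_lt _ hw1
  have hwm : w * m = w * (N / w) + w := by rw [hm]; ring
  have hlt : N < w * m := by omega
  have hle : w * m ≤ N + w := by omega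
  have hχ : strc q s c N = fun x => c (x % q) (x / (q * m)) := rfl
  have hB' := hB k q s m c hq hs hm1
  have hO' := hO k (q * s * m - 1) (fun x => c (x % q) (x / (q * m)))
  rw [← hχ, ← hw] at hB' hO'
  set N' : ℕ := w * m - 1 with hN'
  have hNN : N ≤ N' := by omega
  obtain ⟨hm2, hm3⟩ := mono_mono (strc q s c N) hNN
  have hm4 : N' * (N' - N) ≤ (N + w) * w := Nat.mul_le_mul (by omega) (by omega)
  have hcnt := cnt_le q s c
  set S := schurMono (strc q s c N) N with hS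
  set S' := schurMono (strc q s c N) N' with hS'
  set O := ordP (strc q s c N) N' 0 with hOdef
  -- real versions
  have hwR : (w : ℝ) = q * s := by rw [hw]; push_cast; ring
  have h1w : (1 : ℝ) ≤ w := by exact_mod_cast hw1
  have hmN : (m : ℝ) ≤ N + 1 := by
    have : m ≤ N + 1 := by
      have := Nat.div_le_self N w
      omega
    exact_mod_cast this
  have hm0 : (0 : ℝ) ≤ m := Nat.cast_nonneg _
  have hN0 : (0 : ℝ) ≤ N := Nat.cast_nonneg _
  have e1 : (O : ℝ) ≤ 2 * S' := by exact_mod_cast hO'.1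
  have e2 : 2 * (S' : ℝ) ≤ O + N' := by exact_mod_cast hO'.2
  have e3 : (N' : ℝ) ≤ N + w := by
    have : N' ≤ N + w := by omega
    exact_mod_cast this
  have e4 : (S : ℝ) ≤ S' := by exact_mod_cast hm2
  have e5 : (S' : ℝ) ≤ S + (N + w) * w := by
    have : S' ≤ S + (N + w) * w := hm3.trans (by omega)
    exact_mod_cast this
  have e6 : (N : ℝ) < w * m := by exact_mod_cast hlt
  have e7 : (w : ℝ) * m ≤ N + w := by exact_mod_cast hle
  have e8 := abs_le.1 hB'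
  have e9 : (q : ℝ) ^ 2 * (s : ℝ) ^ 2 = (w : ℝ) ^ 2 := by rw [hwR]; ring
  have hd : dens q s c * ((w : ℝ) * m) ^ 2 = (m : ℝ) ^ 2 * cnt q s c / 4 := by
    unfold Pool.Agent.Helper87.SL.dens
    rw [show 4 * (q : ℝ) ^ 2 * (s : ℝ) ^ 2 = 4 * (w : ℝ) ^ 2 by rw [← e9]; ring]
    have : (w : ℝ) ≠ 0 := by linarith
    field_simp
  have hd0 : 0 ≤ dens q s c := by unfold Pool.Agent.Helper87.SL.dens; positivity
  have hd1 : dens q s c ≤ 1 / 2 := by
    unfold Pool.Agent.Helper87.SL.dens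
    rw [div_le_iff₀ (by
      rw [show 4 * (q : ℝ) ^ 2 * (s : ℝ) ^ 2 = 4 * (w : ℝ) ^ 2 by rw [← e9]; ring]
      positivity)]
    have : (cnt q s c : ℝ) ≤ 2 * (q : ℝ) ^ 2 * (s : ℝ) ^ 2 := by exact_mod_cast hcnt
    linarith
  have hB1 : 6 * (m : ℝ) * (q : ℝ) ^ 2 * (s : ℝ) ^ 2 = 6 * m * (w : ℝ) ^ 2 := by
    rw [← e9]; ring
  rw [hB1] at e8
  -- `|S' - dens (w m)²|`
  have f1 : |(S' : ℝ) - dens q s c * ((w : ℝ) * m) ^ 2| ≤ (2 * (N + w) + 6 * m * (w : ℝ) ^ 2) / 4 := by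
    rw [hd, abs_le]
    constructor <;> linarith [e8.1, e8.2]
  -- `|S - S'|`
  have f0 : (0 : ℝ) ≤ (N + w) * w := by positivity
  have f2 : |(S : ℝ) - S'| ≤ (N + w) * w := by
    rw [abs_le]
    constructor <;> linarith
  have f3 : |dens q s c * ((w : ℝ) * m) ^ 2 - dens q s c * (N : ℝ) ^ 2| ≤
      1 / 2 * (2 * N * w + (w : ℝ) ^ 2) := by
    rw [← mul_sub, abs_mul, abs_of_nonneg hd0]
    have g1 : |((w : ℝ) * m) ^ 2 - (N : ℝ) ^ 2| ≤ 2 * N * w + (w : ℝ) ^ 2 := by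
      have a1 : (N : ℝ) ^ 2 ≤ ((w : ℝ) * m) ^ 2 := pow_le_pow_left₀ hN0 e6.le 2
      have a2 : ((w : ℝ) * m) ^ 2 ≤ (N + w : ℝ) ^ 2 := pow_le_pow_left₀ (hN0.trans e6.le) e7 2
      rw [abs_of_nonneg (sub_nonneg.2 a1)]
      linarith [a2]
    exact mul_le_mul hd1 g1 (abs_nonneg _) (by norm_num)
  have f4 : |(S : ℝ) - dens q s c * (N : ℝ) ^ 2| ≤
      (N + w) * w + (2 * (N + w) + 6 * m * (w : ℝ) ^ 2) / 4 +
        1 / 2 * (2 * N * w + (w : ℝ) ^ 2) := by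
    have g2 : (S : ℝ) - dens q s c * (N : ℝ) ^ 2 = ((S : ℝ) - S') +
        ((S' : ℝ) - dens q s c * ((w : ℝ) * m) ^ 2) +
        (dens q s c * ((w : ℝ) * m) ^ 2 - dens q s c * (N : ℝ) ^ 2) := by ring
    rw [g2]
    refine (abs_add_three _ _ _).trans ?_
    linarith
  refine f4.trans ?_
  rw [← hwR]
  have k1 : (w : ℝ) ≤ (w : ℝ) ^ 2 := by
    rw [pow_two]
    exact le_mul_of_one_le_left (by linarith) h1w
  have k0 : (1 : ℝ) ≤ (w : ℝ) ^ 2 := h1w.trans k1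
  have k2 : (N : ℝ) * w ≤ N * (w : ℝ) ^ 2 := mul_le_mul_of_nonneg_left k1 hN0
  have k3 : (m : ℝ) * (w : ℝ) ^ 2 ≤ (N + 1) * (w : ℝ) ^ 2 :=
    mul_le_mul_of_nonneg_right hmN (by positivity)
  have k4 : (N : ℝ) ≤ N * (w : ℝ) ^ 2 := le_mul_of_one_le_right hN0 k0
  have k5 : (0 : ℝ) ≤ N * (w : ℝ) ^ 2 := by positivity
  linarith

end Pool.Agent.Helper89.SL
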